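import Pool.Agent.Helper15_SIU.Stmts
import Pool.Agent.Helper15_SIU.Lib3

/-!
# MP_021b97_an: module PCS (forms which come from the sphere)
-/

set_option autoImplicit false
open MeasureTheory Filter Topology
namespace Pool.Agent.SIU.H68

theorem Lam_loc (hWDG : WdgStmt) {b : Bool} {K : E7 → Alt 7 6} {η η' : E7 → Alt 7 2}
    (h : ∀ z ∈ U2', K z ≠ 0 → η (LL b z) = η' (LL b z)) : Lam b K η = Lam b K η' := by
  unfold Lam
  refine integral_congr_ae ?_
  filter_upwards [ae_sig] with x hx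
  by_cases hK : K (sig x) = 0
  · refine chi_congr ?_
    have h0 : ∀ η : E7 → Alt 7 2, lamF b K η (sig x) = 0 := by
      intro η
      unfold lamF
      rw [hK]
      have := ((hWDG 7 6 2).2.2.1 0 0 (lp (LL b) η (sig x))).1
      rw [zero_smul, zero_smul] at this
      exact this
    rw [h0, h0]
  · exact chi_congr (lamF_congr rfl (h _ hx hK))

theorem pol_add (p q : MvPolynomial (Fin 3) ℝ) (z : E7) : pol (p + q) z = pol p z + pol q z := by
  simp [pol]

theorem pol_sub (p q : MvPolynomial (Fin 3) ℝ) (z : E7) : pol (p - q) z = pol p z - pol q z := by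
  simp [pol]

theorem pol_mul (p q : MvPolynomial (Fin 3) ℝ) (z : E7) : pol (p * q) z = pol p z * pol q z := by
  simp [pol]

theorem pol_smul (t : ℝ) (q : MvPolynomial (Fin 3) ℝ) (z : E7) : pol (t • q) z = t * pol q z := by
  simp [pol]

theorem pol_C (t : ℝ) (z : E7) : pol (MvPolynomial.C t) z = t := by
  simp [pol]

theorem pol_zero (z : E7) : pol 0 z = 0 := by
  simp [pol]

theorem pol_one (z : E7) : pol 1 z = 1 := by
  simp [pol]

theorem pol_X (i : Fin 3) (z : E7) : pol (MvPolynomial.X i) z = xx i z := by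
  simp [pol]

theorem InvFn_pol (hSPH : SphStmt) (P : MvPolynomial (Fin 3) ℝ) : InvFn (pol P) := by
  induction P using MvPolynomial.induction_on with
  | C a =>
    have : pol (MvPolynomial.C a) = fun _ => a := funext fun z => pol_C a z
    rw [this]
    exact InvFn.const a
  | add p q hp hq =>
    have : pol (p + q) = fun z => pol p z + pol q z := funext fun z => pol_add p q z
    rw [this]
    exact hp.add hq
  | mul_X p n hp =>
    have : pol (p * MvPolynomial.X n) = fun z => pol p z * xx n z := funext fun z => by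
      rw [pol_mul, pol_X]
    rw [this]
    exact hp.mul (hSPH.1 n)

theorem inv_diff {f : E7 → ℝ} (hf : InvFn f) {z : E7} (hz : z ∈ X2.U) :
    DifferentiableAt ℝ f z :=
  ((hf.1.contDiffAt (isOpen_U.mem_nhds hz)).differentiableAt (by simp))

theorem hasFDerivAt_pol (hSPH : SphStmt) (P : MvPolynomial (Fin 3) ℝ) {z : E7} (hz : z ∈ X2.U) :
    HasFDerivAt (pol P) (∑ i, pol (MvPolynomial.pderiv i P) z • fderiv ℝ (xx i) z) z := by
  induction P using MvPolynomial.induction_on with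
  | C a =>
    have : pol (MvPolynomial.C a) = fun _ => a := funext fun z => pol_C a z
    rw [this]
    have h0 : (∑ i, pol (MvPolynomial.pderiv i (MvPolynomial.C a)) z • fderiv ℝ (xx i) z) = 0 := by
      refine Finset.sum_eq_zero fun i _ => ?_
      rw [MvPolynomial.pderiv_C, pol_zero, zero_smul]
    rw [h0]
    exact hasFDerivAt_const a z
  | add p q hp hq =>
    have : pol (p + q) = fun z => pol p z + pol q z := funext fun z => pol_add p q z
    rw [this]
    have h0 : (∑ i, pol (MvPolynomial.pderiv i (p + q)) z • fderiv ℝ (xx i) z) =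
        (∑ i, pol (MvPolynomial.pderiv i p) z • fderiv ℝ (xx i) z) +
        (∑ i, pol (MvPolynomial.pderiv i q) z • fderiv ℝ (xx i) z) := by
      rw [← Finset.sum_add_distrib]
      refine Finset.sum_congr rfl fun i _ => ?_
      rw [map_add, pol_add, add_smul]
    rw [h0]
    exact hp.add hq
  | mul_X p n hp =>
    have : pol (p * MvPolynomial.X n) = fun z => pol p z * xx n z := funext fun z => by
      rw [pol_mul, pol_X]
    rw [this]
    have hn : HasFDerivAt (xx n) (fderiv ℝ (xx n) z) z :=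
      (inv_diff (hSPH.1 n) hz).hasFDerivAt
    have h0 : (∑ i, pol (MvPolynomial.pderiv i (p * MvPolynomial.X n)) z • fderiv ℝ (xx i) z) =
        pol p z • fderiv ℝ (xx n) z +
        xx n z • (∑ i, pol (MvPolynomial.pderiv i p) z • fderiv ℝ (xx i) z) := by
      have e : ∀ i, pol (MvPolynomial.pderiv i (p * MvPolynomial.X n)) z =
          xx n z * pol (MvPolynomial.pderiv i p) z + (if n = i then pol p z else 0) := by
        intro i
        rw [Derivation.leibniz, pol_add, smul_eq_mul, smul_eq_mul, pol_mul, pol_mul, pol_X,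
          MvPolynomial.pderiv_X]
        by_cases h : n = i
        · subst h
          rw [Pi.single_eq_same, pol_one]
          simp
          ring
        · rw [Pi.single_eq_of_ne h, pol_zero, if_neg h]
          ring
      simp_rw [e, add_smul, Finset.sum_add_distrib, Finset.smul_sum, smul_smul, ite_smul,
        zero_smul, Finset.sum_ite_eq, Finset.mem_univ, if_true]
      rw [add_comm]
    rw [h0]
    exact hp.mul hn

/-! ## `cc2` -/

theorem cc2_add_left (hWON : WonStmt) {N : ℕ} (b b' c : (Fin N → ℂ) →L[ℝ] ℝ) :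
    cc2 (b + b') c = cc2 b c + cc2 b' c :=
  (hWON N 1).1 b b' (w1 c (cst N 1))

theorem cc2_smul_left (hWON : WonStmt) {N : ℕ} (t : ℝ) (b c : (Fin N → ℂ) →L[ℝ] ℝ) :
    cc2 (t • b) c = t • cc2 b c :=
  ((hWON N 1).2.2.1 t b (w1 c (cst N 1))).1

theorem cc2_swap (hWON : WonStmt) {N : ℕ} (b c : (Fin N → ℂ) →L[ℝ] ℝ) :
    cc2 b c = - cc2 c b :=
  (hWON N 0).2.2.2.2.1 b c (cst N 1)

theorem cc2_self (hWON : WonStmt) {N : ℕ} (b : (Fin N → ℂ) →L[ℝ] ℝ) : cc2 b b = 0 := by
  have h := cc2_swap hWON b b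
  have h2 : (2 : ℝ) • cc2 b b = 0 := by
    rw [two_smul]
    nth_rewrite 2 [h]
    exact add_neg_cancel _
  exact (smul_eq_zero.mp h2).resolve_left (by norm_num)

theorem cc2_add_right (hWON : WonStmt) {N : ℕ} (b c c' : (Fin N → ℂ) →L[ℝ] ℝ) :
    cc2 b (c + c') = cc2 b c + cc2 b c' := by
  rw [cc2_swap hWON b (c + c'), cc2_add_left hWON, cc2_swap hWON b c, cc2_swap hWON b c', neg_add]

theorem cc2_smul_right (hWON : WonStmt) {N : ℕ} (t : ℝ) (b c : (Fin N → ℂ) →L[ℝ] ℝ) :
    cc2 b (t • c) = t • cc2 b c := by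
  rw [cc2_swap hWON b (t • c), cc2_smul_left hWON, cc2_swap hWON b c, smul_neg]

theorem cc2_zero_left (hWON : WonStmt) {N : ℕ} (c : (Fin N → ℂ) →L[ℝ] ℝ) :
    cc2 0 c = 0 := by
  have := cc2_smul_left hWON 0 0 c
  rw [zero_smul, zero_smul] at this
  exact this

theorem cc2_expand (hWON : WonStmt) {N : ℕ} (D : Fin 3 → (Fin N → ℂ) →L[ℝ] ℝ)
    (α β : Fin 3 → ℝ) :
    cc2 (∑ i, α i • D i) (∑ j, β j • D j) =
      (α 1 * β 2 - α 2 * β 1) • cc2 (D 1) (D 2) + (α 2 * β 0 - α 0 * β 2) • cc2 (D 2) (D 0) +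
      (α 0 * β 1 - α 1 * β 0) • cc2 (D 0) (D 1) := by
  simp only [Fin.sum_univ_three, cc2_add_left hWON, cc2_add_right hWON, cc2_smul_left hWON,
    cc2_smul_right hWON, cc2_self hWON]
  rw [cc2_swap hWON (D 1) (D 0), cc2_swap hWON (D 2) (D 1), cc2_swap hWON (D 0) (D 2)]
  module

/-- the polynomial of the form `P dP' ∧ dP''` on the sphere -/
noncomputable def QQ (P P' P'' : MvPolynomial (Fin 3) ℝ) : MvPolynomial (Fin 3) ℝ :=
  P * ((MvPolynomial.pderiv 1 P' * MvPolynomial.pderiv 2 P'' -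
      MvPolynomial.pderiv 2 P' * MvPolynomial.pderiv 1 P'') * MvPolynomial.X 0 +
    (MvPolynomial.pderiv 2 P' * MvPolynomial.pderiv 0 P'' -
      MvPolynomial.pderiv 0 P' * MvPolynomial.pderiv 2 P'') * MvPolynomial.X 1 +
    (MvPolynomial.pderiv 0 P' * MvPolynomial.pderiv 1 P'' -
      MvPolynomial.pderiv 1 P' * MvPolynomial.pderiv 0 P'') * MvPolynomial.X 2)

theorem pol_cc2 (hWON : WonStmt) (hSPH : SphStmt) (P P' P'' : MvPolynomial (Fin 3) ℝ)
    {χ χ' χ'' : E7 → ℝ} (h' : InvFn χ') (h'' : InvFn χ'')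
    {z : E7} (hz : z ∈ X2.U) (d' : fderiv ℝ χ' z = 0) (d'' : fderiv ℝ χ'' z = 0) :
    (χ z * pol P z) • cc2 (fderiv ℝ (fun z => χ' z * pol P' z) z)
      (fderiv ℝ (fun z => χ'' z * pol P'' z) z) =
    ((χ z * χ' z * χ'' z) * pol (QQ P P' P'') z) • kL z := by
  have e : ∀ (χ' : E7 → ℝ) (P' : MvPolynomial (Fin 3) ℝ), InvFn χ' → fderiv ℝ χ' z = 0 →
      fderiv ℝ (fun z => χ' z * pol P' z) z =
        χ' z • ∑ i, pol (MvPolynomial.pderiv i P') z • fderiv ℝ (xx i) z := by
    intro χ' P' h' d'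
    have h1 : HasFDerivAt χ' (0 : E7 →L[ℝ] ℝ) z := by
      have := (inv_diff h' hz).hasFDerivAt
      rwa [d'] at this
    have := (h1.mul (hasFDerivAt_pol hSPH P' hz)).fderiv
    rw [smul_zero, add_zero] at this
    exact this
  rw [e χ' P' h' d', e χ'' P'' h'' d'', cc2_smul_left hWON, cc2_smul_right hWON,
    cc2_expand hWON, (hSPH.2.2.2 z hz).1, (hSPH.2.2.2 z hz).2.1, (hSPH.2.2.2 z hz).2.2]
  simp only [smul_smul, ← add_smul]
  congr 1
  simp only [QQ, pol_mul, pol_add, pol_sub, pol_X]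
  ring

theorem tri_eq_Lam (hLNT : LntStmt) (b : Bool) {K : E7 → Alt 7 6} (hK : Clo K)
    {a f g : E7 → ℝ} (ha : InvFn a) (hf : InvFn f) (hg : InvFn g) :
    tri b K a f g = Lam b K (fun z => a z • cc2 (fderiv ℝ f z) (fderiv ℝ g z)) := by
  have := hLNT b K hK.1.continuousOn hK.2.1
    (fun z => a z • cc2 (fderiv ℝ f z) (fderiv ℝ g z)) 1 (fun _ => a) (fun _ => f) (fun _ => g)
    (fun _ => ⟨ha, hf, hg⟩) (fun z _ => by simp)
  rw [this]
  simp

theorem tri_pol (hWON : WonStmt) (hWDG : WdgStmt) (hSPH : SphStmt) (hLNT : LntStmt)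
    (P P' P'' : MvPolynomial (Fin 3) ℝ) (b : Bool) {K : E7 → Alt 7 6} (hK : Clo K)
    {χ χ' χ'' : E7 → ℝ} (h : InvFn χ) (h' : InvFn χ') (h'' : InvFn χ'')
    (hd : ∀ z ∈ U2', K z ≠ 0 → fderiv ℝ χ' (LL b z) = 0 ∧ fderiv ℝ χ'' (LL b z) = 0) :
    tri b K (fun z => χ z * pol P z) (fun z => χ' z * pol P' z) (fun z => χ'' z * pol P'' z) =
      Lam b K (fun z => ((χ z * χ' z * χ'' z) * pol (QQ P P' P'') z) • kL z) := by
  rw [tri_eq_Lam hLNT b hK (h.mul (InvFn_pol hSPH P)) (h'.mul (InvFn_pol hSPH P'))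
    (h''.mul (InvFn_pol hSPH P''))]
  refine Lam_loc hWDG fun z hz hKz => ?_
  exact pol_cc2 hWON hSPH P P' P'' h' h'' (LL_mem b hz).1 (hd z hz hKz).1 (hd z hz hKz).2

/-- `Lam` of `h ω_L` in terms of `tri` -/
theorem Lam_kL (hSPH : SphStmt) (hLNT : LntStmt) (b : Bool) {K : E7 → Alt 7 6} (hK : Clo K)
    {a : E7 → ℝ} (ha : InvFn a) :
    Lam b K (fun z => a z • kL z) = tri b K (fun z => a z * xx 0 z) (xx 1) (xx 2) +
      tri b K (fun z => a z * xx 1 z) (xx 2) (xx 0) +
      tri b K (fun z => a z * xx 2 z) (xx 0) (xx 1) := by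
  have := hLNT b K hK.1.continuousOn hK.2.1 (fun z => a z • kL z) 3
    ![fun z => a z * xx 0 z, fun z => a z * xx 1 z, fun z => a z * xx 2 z]
    ![xx 1, xx 2, xx 0] ![xx 2, xx 0, xx 1] (by
      intro i
      fin_cases i
      · exact ⟨ha.mul (hSPH.1 0), hSPH.1 1, hSPH.1 2⟩
      · exact ⟨ha.mul (hSPH.1 1), hSPH.1 2, hSPH.1 0⟩
      · exact ⟨ha.mul (hSPH.1 2), hSPH.1 0, hSPH.1 1⟩)
    (fun z hz => by
      rw [Fin.sum_univ_three]
      show a z • kL z = (a z * xx 0 z) • cc2 (fderiv ℝ (xx 1) z) (fderiv ℝ (xx 2) z) +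
        (a z * xx 1 z) • cc2 (fderiv ℝ (xx 2) z) (fderiv ℝ (xx 0) z) +
        (a z * xx 2 z) • cc2 (fderiv ℝ (xx 0) z) (fderiv ℝ (xx 1) z)
      conv_lhs => rw [hSPH.2.2.1 z hz]
      rw [smul_add, smul_add, smul_smul, smul_smul, smul_smul])
  rw [this, Fin.sum_univ_three]
  rfl

theorem pcs (_hLNK : LnkStmt) (hWON : WonStmt) (hWDG : WdgStmt) (_hLIN : LinStmt)
    (hTRS : TrsStmt) (hSPH : SphStmt) (hALG : AlgStmt) (hLNT : LntStmt) : PcsStmt := by
  obtain ⟨I, hI⟩ := hALG
  intro P P' P''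
  refine ⟨I (QQ P P' P''), ?_⟩
  intro b K hK χ χ' χ'' h h' h'' hd
  rw [tri_pol hWON hWDG hSPH hLNT P P' P'' b hK h h' h'' (fun z hz hKz => (hd z hz hKz).2)]
  set X : E7 → ℝ := fun z => χ z * χ' z * χ'' z with hX
  have hXi : InvFn X := (h.mul h').mul h''
  have hXd : ∀ z ∈ U2', K z ≠ 0 → fderiv ℝ X (LL b z) = 0 := by
    intro z hz hKz
    obtain ⟨d1, d2, d3⟩ := hd z hz hKz
    have hz' := (LL_mem b hz).1
    have g1 : HasFDerivAt χ (0 : E7 →L[ℝ] ℝ) (LL b z) := by
      have := (inv_diff h hz').hasFDerivAt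
      rwa [d1] at this
    have g2 : HasFDerivAt χ' (0 : E7 →L[ℝ] ℝ) (LL b z) := by
      have := (inv_diff h' hz').hasFDerivAt
      rwa [d2] at this
    have g3 : HasFDerivAt χ'' (0 : E7 →L[ℝ] ℝ) (LL b z) := by
      have := (inv_diff h'' hz').hasFDerivAt
      rwa [d3] at this
    have := ((g1.mul g2).mul g3).fderiv
    simp only [smul_zero, add_zero] at this
    exact this
  have tri_add : ∀ a a' f g : E7 → ℝ, InvFn a → InvFn a' → InvFn f → InvFn g →
      tri b K (fun z => a z + a' z) f g = tri b K a f g + tri b K a' f g := by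
    intro a a' f g ha ha' hf hg
    exact (hTRS b K hK a a' f f g ha ha' hf hf hg).1
  have tri_smul : ∀ (t : ℝ) (a f g : E7 → ℝ), InvFn a → InvFn f → InvFn g →
      tri b K (fun z => t * a z) f g = t * tri b K a f g := by
    intro t a f g ha hf hg
    exact (hTRS b K hK a a f f g ha ha hf hf hg).2.1 t
  have Lam_add : ∀ a a' : E7 → ℝ, InvFn a → InvFn a' →
      Lam b K (fun z => (a z + a' z) • kL z) =
        Lam b K (fun z => a z • kL z) + Lam b K (fun z => a' z • kL z) := by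
    intro a a' ha ha'
    rw [Lam_kL hSPH hLNT b hK (ha.add ha'), Lam_kL hSPH hLNT b hK ha, Lam_kL hSPH hLNT b hK ha']
    have e : ∀ i j k : Fin 3, tri b K (fun z => (a z + a' z) * xx i z) (xx j) (xx k) =
        tri b K (fun z => a z * xx i z) (xx j) (xx k) +
        tri b K (fun z => a' z * xx i z) (xx j) (xx k) := by
      intro i j k
      rw [← tri_add _ _ _ _ (ha.mul (hSPH.1 i)) (ha'.mul (hSPH.1 i)) (hSPH.1 j) (hSPH.1 k)]
      congr 1
      funext z
      ring
    rw [e, e, e]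
    ring
  have Lam_smul : ∀ (t : ℝ) (a : E7 → ℝ), InvFn a →
      Lam b K (fun z => (t * a z) • kL z) = t * Lam b K (fun z => a z • kL z) := by
    intro t a ha
    rw [Lam_kL hSPH hLNT b hK ((InvFn.const t).mul ha), Lam_kL hSPH hLNT b hK ha]
    have e : ∀ i j k : Fin 3, tri b K (fun z => (t * a z) * xx i z) (xx j) (xx k) =
        t * tri b K (fun z => a z * xx i z) (xx j) (xx k) := by
      intro i j k
      rw [← tri_smul t _ _ _ (ha.mul (hSPH.1 i)) (hSPH.1 j) (hSPH.1 k)]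
      congr 1
      funext z
      ring
    rw [e, e, e]
    ring
  -- the linear functional
  let Φ : MvPolynomial (Fin 3) ℝ →ₗ[ℝ] ℝ :=
    { toFun := fun p => Lam b K (fun z => (X z * pol p z) • kL z)
      map_add' := by
        intro p q
        rw [← Lam_add _ _ (hXi.mul (InvFn_pol hSPH p)) (hXi.mul (InvFn_pol hSPH q))]
        congr 1
        funext z
        rw [pol_add, mul_add]
      map_smul' := by
        intro t p
        rw [RingHom.id_apply, smul_eq_mul, ← Lam_smul t _ (hXi.mul (InvFn_pol hSPH p))]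
        congr 1
        funext z
        rw [pol_smul]
        congr 1
        ring }
  have hΦ : ∀ p, Φ p = Lam b K (fun z => (X z * pol p z) • kL z) := fun p => rfl
  -- rotation invariance
  have rot : ∀ (k : Fin 3) (p : MvPolynomial (Fin 3) ℝ), Φ (QQ 1 p (MvPolynomial.X k)) = 0 := by
    intro k p
    have e1 := tri_pol hWON hWDG hSPH hLNT 1 p (MvPolynomial.X k) b hK hXi (InvFn.const 1)
      (InvFn.const 1) (fun z hz hKz => ⟨by simp, by simp⟩)
    have e2 : Φ (QQ 1 p (MvPolynomial.X k)) = tri b K X (pol p) (xx k) := by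
      rw [hΦ]
      have f1 : (fun z => X z * pol 1 z) = X := funext fun z => by rw [pol_one, mul_one]
      have f2 : (fun z => (1 : ℝ) * pol p z) = pol p := funext fun z => one_mul _
      have f3 : (fun z => (1 : ℝ) * pol (MvPolynomial.X k) z) = xx k := funext fun z => by
        rw [pol_X, one_mul]
      rw [f1, f2, f3] at e1
      rw [e1]
      congr 1
      funext z
      rw [mul_one, mul_one]
    rw [e2]
    have e3 := (hTRS b K hK (pol p) (pol p) X X (xx k) (InvFn_pol hSPH p) (InvFn_pol hSPH p) hXi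
      hXi (hSPH.1 k)).2.2.2.1
    rw [e3, neg_eq_zero, tri_eq_Lam hLNT b hK (InvFn_pol hSPH p) hXi (hSPH.1 k)]
    have e4 : Lam b K (fun z => pol p z • cc2 (fderiv ℝ X z) (fderiv ℝ (xx k) z)) =
        Lam b K (fun _ => 0) := by
      refine Lam_loc hWDG fun z hz hKz => ?_
      show pol p (LL b z) • cc2 (fderiv ℝ X (LL b z)) (fderiv ℝ (xx k) (LL b z)) = 0
      rw [hXd z hz hKz, cc2_zero_left hWON, smul_zero]
    rw [e4]
    have := hLNT b K hK.1.continuousOn hK.2.1 (fun _ => 0) 0 (fun _ => X) (fun _ => X) (fun _ => X)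
      (fun i => i.elim0) (fun z _ => by simp)
    rw [this]
    simp
  have r0 : ∀ p : MvPolynomial (Fin 3) ℝ, QQ 1 p (MvPolynomial.X 0) =
      MvPolynomial.X 1 * MvPolynomial.pderiv 2 p - MvPolynomial.X 2 * MvPolynomial.pderiv 1 p := by
    intro p
    unfold QQ
    rw [MvPolynomial.pderiv_X_self, MvPolynomial.pderiv_X_of_ne (by decide : (0 : Fin 3) ≠ 1),
      MvPolynomial.pderiv_X_of_ne (by decide : (0 : Fin 3) ≠ 2)]
    ring
  have r1 : ∀ p : MvPolynomial (Fin 3) ℝ, QQ 1 p (MvPolynomial.X 1) =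
      MvPolynomial.X 2 * MvPolynomial.pderiv 0 p - MvPolynomial.X 0 * MvPolynomial.pderiv 2 p := by
    intro p
    unfold QQ
    rw [MvPolynomial.pderiv_X_self, MvPolynomial.pderiv_X_of_ne (by decide : (1 : Fin 3) ≠ 0),
      MvPolynomial.pderiv_X_of_ne (by decide : (1 : Fin 3) ≠ 2)]
    ring
  have r2 : ∀ p : MvPolynomial (Fin 3) ℝ, QQ 1 p (MvPolynomial.X 2) =
      MvPolynomial.X 0 * MvPolynomial.pderiv 1 p - MvPolynomial.X 1 * MvPolynomial.pderiv 0 p := by
    intro p
    unfold QQ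
    rw [MvPolynomial.pderiv_X_self, MvPolynomial.pderiv_X_of_ne (by decide : (2 : Fin 3) ≠ 0),
      MvPolynomial.pderiv_X_of_ne (by decide : (2 : Fin 3) ≠ 1)]
    ring
  have H := hI Φ (by
    intro i j p
    have s0 := rot 0 p
    have s1 := rot 1 p
    have s2 := rot 2 p
    rw [r0] at s0
    rw [r1] at s1
    rw [r2] at s2
    have neg : ∀ u v : MvPolynomial (Fin 3) ℝ, Φ (u - v) = 0 → Φ (v - u) = 0 := by
      intro u v huv
      rw [← neg_sub, map_neg, huv, neg_zero]
    fin_cases i <;> fin_cases j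
    · show Φ (_ - _) = 0
      rw [sub_self, map_zero]
    · exact s2
    · exact neg _ _ s1
    · exact neg _ _ s2
    · show Φ (_ - _) = 0
      rw [sub_self, map_zero]
    · exact s0
    · exact s1
    · exact neg _ _ s0
    · show Φ (_ - _) = 0
      rw [sub_self, map_zero]) (by
    intro p
    rw [hΦ, hΦ]
    refine Lam_congr (fun _ _ => rfl) (fun z hz => ?_)
    rw [pol_mul]
    have : pol (∑ i, MvPolynomial.X i ^ 2) z = 1 := by
      have h1 := hSPH.2.1 z hz
      rw [← h1]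
      simp [pol]
    rw [this, one_mul])
  have H1 := H (QQ P P' P'')
  rw [hΦ, hΦ] at H1
  rw [H1]
  congr 1
  congr 1
  funext z
  rw [pol_one, mul_one]

end Pool.Agent.SIU.H68
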