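import Pool.Agent.Helper15_SIU.Stmts

/-!
# MP_021b97_an: two-forms evaluated on pairs of vectors, `[C]`-integrals
-/

set_option autoImplicit false
open MeasureTheory Filter Topology
namespace Pool.Agent.SIU.H68

theorem two_add_left {N : ℕ} (a : Alt N 2) (x x' y : Fin N → ℂ) :
    a ![x + x', y] = a ![x, y] + a ![x', y] :=
  a.vecCons_add _ _ _

theorem two_smul_left {N : ℕ} (a : Alt N 2) (t : ℝ) (x y : Fin N → ℂ) :
    a ![t • x, y] = t * a ![x, y] :=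
  a.vecCons_smul _ _ _

theorem two_swap {N : ℕ} (a : Alt N 2) (x y : Fin N → ℂ) : a ![y, x] = - a ![x, y] := by
  have h := a.toAlternatingMap.map_swap (v := ![x, y]) (i := 0) (j := 1) (by decide)
  have h1 : (![x, y] ∘ (Equiv.swap (0 : Fin 2) 1) : Fin 2 → Fin N → ℂ) = ![y, x] := by
    funext i
    fin_cases i <;> simp
  rw [h1] at h
  exact h

theorem two_self {N : ℕ} (a : Alt N 2) (x : Fin N → ℂ) : a ![x, x] = 0 :=
  a.map_eq_zero_of_eq ![x, x] (i := 0) (j := 1) rfl (by decide)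

theorem two_add_right {N : ℕ} (a : Alt N 2) (x y y' : Fin N → ℂ) :
    a ![x, y + y'] = a ![x, y] + a ![x, y'] := by
  rw [two_swap a (y + y') x, two_add_left, two_swap a x y, two_swap a x y']
  ring

theorem two_smul_right {N : ℕ} (a : Alt N 2) (t : ℝ) (x y : Fin N → ℂ) :
    a ![x, t • y] = t * a ![x, y] := by
  rw [two_swap a (t • y) x, two_smul_left, two_swap a x y]
  ring

/-- value of a two-form on `(x, i x)` after multiplication by a complex number -/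
theorem two_csmul {N : ℕ} (a : Alt N 2) (u : ℂ) (x : Fin N → ℂ) :
    a ![u • x, u • (Complex.I • x)] = ‖u‖ ^ 2 * a ![x, Complex.I • x] := by
  have h1 : u • x = u.re • x + u.im • (Complex.I • x) := by
    funext i
    simp only [Pi.add_apply, Pi.smul_apply, smul_eq_mul, Complex.real_smul]
    conv_lhs => rw [← Complex.re_add_im u]
    ring
  have h2 : u • (Complex.I • x) = (-u.im) • x + u.re • (Complex.I • x) := by
    funext i
    simp only [Pi.add_apply, Pi.smul_apply, smul_eq_mul, Complex.real_smul]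
    conv_lhs => rw [← Complex.re_add_im u]
    push_cast
    linear_combination (u.im : ℂ) * x i * Complex.I_sq
  rw [h1, h2]
  simp only [two_add_left, two_add_right, two_smul_left, two_smul_right, two_self,
    two_swap a x (Complex.I • x)]
  rw [Complex.sq_norm, Complex.normSq_apply]
  ring

theorem cvec_two (v : ℕ → E7) : (cvec v (2 * 1) : Fin 2 → E7) = ![v 0, Complex.I • v 0] := by
  funext i
  fin_cases i <;> simp [cvec]

theorem cvec_e0 : (cvec (fun _ => e0) (2 * 1) : Fin 2 → E7) = ![e0, Complex.I • e0] :=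
  cvec_two _

theorem pt_mem_U (ζ : ℂ) (y : ℝ) : pt ζ y ∈ X2.U := by
  rw [mem_U]
  simp [pt]

theorem continuous_pt : Continuous (fun p : ℝ × ℂ => pt p.2 p.1) := by
  unfold pt
  refine continuous_pi fun i => ?_
  fin_cases i <;> simp <;> fun_prop

/-- the value of `β` on `(e₀, i e₀)` at the points of the curve decays like `(1+|ζ|²)⁻²` -/
theorem bound_pt (β : E7 → Alt 7 2) (hc : ContinuousOn β X2.U) (hb : X2.BasicOn X2.U β) :
    ∃ C : ℝ, 0 ≤ C ∧ ∀ (ζ : ℂ) (y : ℝ),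
      |β (pt ζ y) (cvec (fun _ => e0) (2 * 1))| ≤ C * ((1 + ‖ζ‖ ^ 2)⁻¹) ^ 2 := by
  obtain ⟨C, hC⟩ := isCompact_Shell.exists_bound_of_continuousOn (hc.mono Shell_subset)
  refine ⟨max C 0, le_max_right _ _, fun ζ y => ?_⟩
  set A : ℝ := 1 + ‖ζ‖ ^ 2 with hA
  have hA1 : 1 ≤ A := by nlinarith [sq_nonneg ‖ζ‖]
  have hA0 : 0 < A := by linarith
  set Y : ℝ := 1 + y ^ 2 with hY
  have hY0 : 0 < Y := by nlinarith [sq_nonneg y]
  set a : ℂ := (((√A)⁻¹ : ℝ) : ℂ) with ha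
  set d : ℂ := (((√Y)⁻¹ : ℝ) : ℂ) with hd
  have hsA : 0 < √A := Real.sqrt_pos.mpr hA0
  have hsY : 0 < √Y := Real.sqrt_pos.mpr hY0
  have ha0 : a ≠ 0 := by rw [ha]; exact_mod_cast (inv_pos.mpr hsA).ne'
  have hd0 : d ≠ 0 := by rw [hd]; exact_mod_cast (inv_pos.mpr hsY).ne'
  have hna : ‖a‖ ^ 2 = A⁻¹ := by
    rw [ha, Complex.norm_real, Real.norm_of_nonneg (inv_pos.mpr hsA).le, inv_pow,
      Real.sq_sqrt hA0.le]
  have hnd : ‖d‖ ^ 2 = Y⁻¹ := by
    rw [hd, Complex.norm_real, Real.norm_of_nonneg (inv_pos.mpr hsY).le, inv_pow,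
      Real.sq_sqrt hY0.le]
  set c : Fin 3 → ℂ := ![a, 1, d] with hcdef
  have hc0 : ∀ j, c j ≠ 0 := by
    intro j
    fin_cases j
    · exact ha0
    · exact one_ne_zero
    · exact hd0
  set w : E7 := X2.act c (pt ζ y) with hw
  have hwS : w ∈ Shell := by
    have e1 : AA w = 1 := by
      rw [hw, AA_act]
      have : AA (pt ζ y) = A := by simp [AA, pt, hA]; ring
      rw [this]
      show ‖a‖ ^ 2 * A = 1
      rw [hna]
      exact inv_mul_cancel₀ hA0.ne'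
    have e2 : DD w = 1 := by
      rw [hw, DD_act hc0]
      simp [DD, pt, hcdef]
    have e3 : YY w = 1 := by
      rw [hw, YY_act]
      have : YY (pt ζ y) = Y := by simp [YY, pt, hY]; ring
      rw [this]
      show ‖d‖ ^ 2 * Y = 1
      rw [hnd]
      exact inv_mul_cancel₀ hY0.ne'
    unfold Shell
    show 1 / 2 ≤ _ ∧ _ ≤ 2 ∧ 1 / 2 ≤ _ ∧ _ ≤ 2 ∧ 1 / 2 ≤ _ ∧ _ ≤ 2
    rw [e1, e2, e3]
    norm_num
  have hwU : w ∈ X2.U := Shell_subset hwS
  -- invariance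
  have h1 : β (pt ζ y) (cvec (fun _ => e0) (2 * 1)) = A⁻¹ * β w ![e0, Complex.I • e0] := by
    have hi := hb.1 (pt ζ y) (pt_mem_U ζ y) c hc0 ![e0, Complex.I • e0]
    rw [cvec_e0, ← hi, ← hna, ← two_csmul]
    congr 1
    funext i
    fin_cases i
    · show X2.act c e0 = a • e0
      rw [act_eq]
      funext m
      fin_cases m <;> simp [e0, hcdef]
    · show X2.act c (Complex.I • e0) = a • (Complex.I • e0)
      rw [act_eq]
      funext m
      fin_cases m <;> simp [e0, hcdef]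
  -- replace `e₀` by a shorter vector modulo a vertical vector
  set u : E7 := ((A⁻¹ : ℝ) : ℂ) • ![1, -(starRingEnd ℂ) ζ, 0, 0, 0, 0, 0] with hu
  set t : E7 := ![((A⁻¹ : ℝ) : ℂ) * (starRingEnd ℂ) ζ * ζ, ((A⁻¹ : ℝ) : ℂ) * (starRingEnd ℂ) ζ,
    0, 0, 0, 0, 0] with ht
  have hzz : (starRingEnd ℂ) ζ * ζ = ((‖ζ‖ ^ 2 : ℝ) : ℂ) := by
    rw [mul_comm, Complex.mul_conj, Complex.normSq_eq_norm_sq]
  have hAc : ((A⁻¹ : ℝ) : ℂ) * (1 + ((‖ζ‖ ^ 2 : ℝ) : ℂ)) = 1 := by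
    have : (1 : ℂ) + ((‖ζ‖ ^ 2 : ℝ) : ℂ) = (A : ℂ) := by rw [hA]; push_cast; ring
    rw [this, ← Complex.ofReal_mul, inv_mul_cancel₀ hA0.ne', Complex.ofReal_one]
  have he : e0 = u + t := by
    funext m
    fin_cases m
    · show (1 : ℂ) = ((A⁻¹ : ℝ) : ℂ) * 1 + ((A⁻¹ : ℝ) : ℂ) * (starRingEnd ℂ) ζ * ζ
      rw [mul_assoc, hzz, ← mul_add, hAc]
    · show (0 : ℂ) = ((A⁻¹ : ℝ) : ℂ) * -(starRingEnd ℂ) ζ + ((A⁻¹ : ℝ) : ℂ) * (starRingEnd ℂ) ζ
      ring
    all_goals simp [e0, hu, ht]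
  have hwe : w = ![a * ζ, a, 0, 0, 1, d * y, d] := by
    rw [hw, act_eq]
    funext m
    fin_cases m <;> simp [pt, hcdef]
  have hvt : ∀ s : ℂ, X2.Vert w (s • t) := by
    intro s
    rw [vert_iff, hwe]
    refine ⟨s * (((A⁻¹ : ℝ) : ℂ) * (starRingEnd ℂ) ζ) * a⁻¹, 0, 0, ?_⟩
    funext m
    fin_cases m
    · show s * (((A⁻¹ : ℝ) : ℂ) * (starRingEnd ℂ) ζ * ζ) =
        s * (((A⁻¹ : ℝ) : ℂ) * (starRingEnd ℂ) ζ) * a⁻¹ * (a * ζ)
      field_simp
    · show s * (((A⁻¹ : ℝ) : ℂ) * (starRingEnd ℂ) ζ) =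
        s * (((A⁻¹ : ℝ) : ℂ) * (starRingEnd ℂ) ζ) * a⁻¹ * a
      field_simp
    all_goals simp [ht]
  have hk1 : ∀ x : E7, ∀ s : ℂ, β w ![x, s • t] = 0 := fun x s => hb.2 w hwU ![x, s • t] 1 (hvt s)
  have hk0 : ∀ x : E7, ∀ s : ℂ, β w ![s • t, x] = 0 := fun x s => hb.2 w hwU ![s • t, x] 0 (hvt s)
  have h2 : β w ![e0, Complex.I • e0] = β w ![u, Complex.I • u] := by
    rw [he, smul_add, two_add_left, two_add_right, two_add_right, hk1]
    have := hk0 (Complex.I • u) 1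
    rw [one_smul] at this
    rw [this]
    have := hk0 (Complex.I • t) 1
    rw [one_smul] at this
    rw [this]
    ring
  have hun : ‖u‖ ^ 2 ≤ A⁻¹ := by
    have hle : ‖u‖ ≤ A⁻¹ * √A := by
      rw [hu, norm_smul, Complex.norm_real, Real.norm_of_nonneg (inv_pos.mpr hA0).le]
      refine mul_le_mul_of_nonneg_left ?_ (inv_pos.mpr hA0).le
      rw [pi_norm_le_iff_of_nonneg hsA.le]
      intro i
      fin_cases i
      · show ‖(1 : ℂ)‖ ≤ √A
        rw [norm_one]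
        exact Real.one_le_sqrt.mpr hA1
      · show ‖-(starRingEnd ℂ) ζ‖ ≤ √A
        rw [norm_neg, RCLike.norm_conj]
        exact Real.le_sqrt_of_sq_le (by linarith)
      all_goals simp
    calc ‖u‖ ^ 2 ≤ (A⁻¹ * √A) ^ 2 := by gcongr
      _ = A⁻¹ := by
        rw [mul_pow, Real.sq_sqrt hA0.le]
        field_simp
  have h3 : |β w ![u, Complex.I • u]| ≤ max C 0 * A⁻¹ := by
    have hb1 := (β w).le_opNorm ![u, Complex.I • u]
    rw [Fin.prod_univ_two] at hb1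
    have hI : ‖(![u, Complex.I • u] : Fin 2 → E7) 1‖ = ‖u‖ := by
      show ‖Complex.I • u‖ = ‖u‖
      rw [norm_smul, Complex.norm_I, one_mul]
    rw [hI] at hb1
    have hb2 : ‖β w‖ ≤ max C 0 := (hC w hwS).trans (le_max_left _ _)
    calc |β w ![u, Complex.I • u]| ≤ ‖β w‖ * (‖u‖ * ‖u‖) := hb1
      _ = ‖β w‖ * ‖u‖ ^ 2 := by ring
      _ ≤ max C 0 * A⁻¹ := by
        refine mul_le_mul hb2 hun (by positivity) (le_max_right _ _)
  rw [h1, h2, abs_mul, abs_of_pos (inv_pos.mpr hA0)]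
  calc A⁻¹ * |β w ![u, Complex.I • u]| ≤ A⁻¹ * (max C 0 * A⁻¹) :=
        mul_le_mul_of_nonneg_left h3 (inv_pos.mpr hA0).le
    _ = max C 0 * A⁻¹ ^ 2 := by ring

/-- the density `(1+|ζ|²)⁻²` is integrable on `ℂ` -/
theorem integrable_dens : Integrable (fun ζ : ℂ => ((1 + ‖ζ‖ ^ 2)⁻¹) ^ 2) := by
  have h := integrable_rpow_neg_one_add_norm_sq (E := ℂ) (μ := volume) (r := 4) (by
    rw [Complex.finrank_real_complex]; norm_num)
  refine h.congr (Filter.Eventually.of_forall fun ζ => ?_)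
  show (1 + ‖ζ‖ ^ 2) ^ (-(4 : ℝ) / 2) = ((1 + ‖ζ‖ ^ 2)⁻¹) ^ 2
  have h0 : (0 : ℝ) ≤ 1 + ‖ζ‖ ^ 2 := by positivity
  rw [show (-(4 : ℝ) / 2) = ((-2 : ℤ) : ℝ) by norm_num, Real.rpow_intCast, zpow_neg, inv_pow]
  rfl

/-- the integrand of `T` -/
noncomputable def tF (β : E7 → Alt 7 2) (p : ℝ × ℂ) : ℝ :=
  β (pt p.2 p.1) (cvec (fun _ => e0) (2 * 1))

theorem continuous_tF {β : E7 → Alt 7 2} (hc : ContinuousOn β X2.U) : Continuous (tF β) := by
  have h1 : Continuous (fun p : ℝ × ℂ => β (pt p.2 p.1)) := by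
    rw [← continuousOn_univ]
    exact hc.comp continuous_pt.continuousOn (fun p _ => pt_mem_U p.2 p.1)
  have h2 : Continuous (fun a : Alt 7 2 => a (cvec (fun _ => e0) (2 * 1))) := by
    exact continuous_eval_const _
  exact h2.comp h1

theorem integrable_tF {β : E7 → Alt 7 2} (hc : ContinuousOn β X2.U) (hb : X2.BasicOn X2.U β)
    {𝕂 : Set ℝ} (hK : IsCompact 𝕂) :
    Integrable (tF β) ((volume.restrict 𝕂).prod (volume : Measure ℂ)) := by
  obtain ⟨C, hC0, hC⟩ := bound_pt β hc hb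
  have hfin : IsFiniteMeasure (volume.restrict 𝕂 : Measure ℝ) :=
    ⟨by rw [Measure.restrict_apply_univ]; exact hK.measure_lt_top⟩
  have hg : Integrable (fun p : ℝ × ℂ => C * ((1 + ‖p.2‖ ^ 2)⁻¹) ^ 2)
      ((volume.restrict 𝕂).prod (volume : Measure ℂ)) :=
    (integrable_dens.comp_snd (volume.restrict 𝕂)).const_mul C
  refine hg.mono' (continuous_tF hc).aestronglyMeasurable (Filter.Eventually.of_forall fun p => ?_)
  exact hC p.2 p.1

theorem int_tF {β : E7 → Alt 7 2} (hc : ContinuousOn β X2.U) (hb : X2.BasicOn X2.U β)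
    {𝕂 : Set ℝ} (hK : IsCompact 𝕂) :
    ∫ y in 𝕂, ∫ ζ : ℂ, β (pt ζ y) (cvec (fun _ => e0) (2 * 1)) =
      ∫ p, tF β p ∂((volume.restrict 𝕂).prod (volume : Measure ℂ)) :=
  (integral_prod (tF β) (integrable_tF hc hb hK)).symm

/-- the current `T` -/
noncomputable def TT (𝕂 : Set ℝ) (hK : IsCompact 𝕂) : X2.Current 1 where
  toFun β := ∫ p, tF β.1 p ∂((volume.restrict 𝕂).prod (volume : Measure ℂ))
  map_add' β γ := by
    have h := integral_add (integrable_tF β.2.1 β.2.2.1 hK) (integrable_tF γ.2.1 γ.2.2.1 hK)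
    exact h
  map_smul' t β := by
    have h := integral_const_mul (μ := ((volume.restrict 𝕂).prod (volume : Measure ℂ))) t (tF β.1)
    exact h

theorem isT_TT (𝕂 : Set ℝ) (hK : IsCompact 𝕂) : IsT 𝕂 (TT 𝕂 hK) := fun β =>
  (int_tF β.2.1 β.2.2.1 hK).symm

theorem spos_cvec {b : Alt 7 2} (h : SPos (N := 7) 1 b) (x : E7) :
    0 ≤ b ![x, Complex.I • x] := by
  obtain ⟨m, c, L, hc, hb⟩ := h
  have := hb ![x, Complex.I • x]
  rw [this]
  refine Finset.sum_nonneg fun l _ => mul_nonneg (hc l) ?_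
  have hd := Matrix.det_fin_two (fun i j : Fin 2 =>
      if (i : ℕ) % 2 = 0 then (L l ((i : ℕ) / 2) ((![x, Complex.I • x] : Fin 2 → E7) j)).re
      else (L l ((i : ℕ) / 2) ((![x, Complex.I • x] : Fin 2 → E7) j)).im)
  refine le_of_le_of_eq ?_ hd.symm
  simp
  nlinarith [mul_self_nonneg ((L l 0) x).re, mul_self_nonneg ((L l 0) x).im]

theorem tdf : TdfStmt := by
  intro 𝕂 hK
  refine ⟨TT 𝕂 hK, isT_TT 𝕂 hK, ?_, ?_⟩
  · intro u hu β β' h
    show ∫ p, tF β'.1 p ∂_ = ∫ p, tF β.1 p ∂_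
    congr 1
    funext p
    unfold tF
    rw [h _ (pt_mem_U _ _), cvec_e0]
    have := two_csmul (β.1 (pt p.2 p.1)) u e0
    rw [hu, one_pow, one_mul] at this
    rw [← this]
    congr 1
    funext i
    fin_cases i <;> rfl
  · intro β h
    refine integral_nonneg fun p => ?_
    show 0 ≤ β.1 (pt p.2 p.1) (cvec (fun _ => e0) (2 * 1))
    rw [cvec_e0]
    exact spos_cvec (h _ (pt_mem_U _ _)) e0

end Pool.Agent.SIU.H68
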